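import Mathlib
import Pool.Agent.V11214.HSDef
import Pool.Agent.Results.MP_fe892a_gt.ClosedCounterexample

set_option autoImplicit false

namespace Pool.Agent.Results.MP_53bf97_gt.NotAposyndetic

open Set Topology

/-- There is a nondegenerate metric continuum `X` such that for no point `p` of `X` is the
space `HS(p,X)` aposyndetic. -/
theorem result : ∃ (X : Type) (_ : MetricSpace X), CompactSpace X ∧ ConnectedSpace X ∧
    Nontrivial X ∧ ∀ p : X,
      ¬ Pool.Agent.V11214.HSDef.Aposyndetic (Pool.Agent.V11214.HSDef.HS X p) := by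
  have hm := Pool.Agent.Results.MP_fe892a_gt.ClosedCounterexample.Sol.metrizable 2
  let X := Pool.Agent.Results.MP_fe892a_gt.ClosedCounterexample.Sol 2
  have hconn : ConnectedSpace X :=
    Pool.Agent.Results.MP_fe892a_gt.ClosedCounterexample.Sol.connectedSpace two_ne_zero
  have hnt : Nontrivial X :=
    Pool.Agent.Results.MP_fe892a_gt.ClosedCounterexample.Sol.nontrivial two_ne_zero
  have hcomp : CompactSpace X := inferInstance
  have huniv : ∀ C : Set X, IsClosed C → IsPreconnected C → (interior C).Nonempty → C = univ :=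
    fun C h1 h2 h3 =>
      Pool.Agent.Results.MP_fe892a_gt.ClosedCounterexample.Sol.eq_univ le_rfl h1 h2 h3
  refine ⟨X, TopologicalSpace.metrizableSpaceMetric X, hcomp, hconn, hnt, ?_⟩
  intro p
  exact @Pool.Agent.V11214.HSDef.not_apos X (TopologicalSpace.metrizableSpaceMetric X) hnt huniv p

end Pool.Agent.Results.MP_53bf97_gt.NotAposyndetic
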