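import Mathlib
import Pool.Agent.V11214.HSDef

set_option autoImplicit false

namespace Pool.Agent.Results.MP_53bf97_gt.SemiAposyndetic

/-- For every continuum `X` and every `p` the space `HS(p,X)` is semi-aposyndetic. -/
theorem result : ∀ (X : Type) [MetricSpace X] [CompactSpace X] [ConnectedSpace X] (p : X),
    Pool.Agent.V11214.HSDef.SemiAposyndetic (Pool.Agent.V11214.HSDef.HS X p) := by
  intro X _ _ _ p
  exact Pool.Agent.V11214.HSDef.semi p

end Pool.Agent.Results.MP_53bf97_gt.SemiAposyndetic
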